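import Pool.Agent.H23.GZ.Targets5

/-!
# Integration over one column of a matrix
-/

set_option autoImplicit false

namespace Pool.Agent.H4.GZ

open MeasureTheory Pool.Agent.H34.GM Pool.Agent.H34.GZ

/-- one row -/
private theorem row {m : ℕ} (j : Fin m) :
    MeasurePreserving (fun p : (Fin m → ℝ) × ℝ => Function.update p.1 j p.2)
      (((volume : Measure (Fin m → ℝ)).restrict
        {r : Fin m → ℝ | r j ∈ Set.Icc (0 : ℝ) 1}).prod (volume : Measure ℝ)) volume := by
  classical
  have hm : Measurable fun p : (Fin m → ℝ) × ℝ => Function.update p.1 j p.2 := by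
    refine measurable_pi_iff.2 fun l => ?_
    by_cases h : l = j
    · subst h
      simp only [Function.update_self]
      exact measurable_snd
    · simp only [Function.update_of_ne h]
      exact (measurable_pi_apply l).comp measurable_fst
  refine ⟨hm, (Measure.pi_eq (μ := fun _ : Fin m => (volume : Measure ℝ)) fun s hs => ?_).symm⟩
  rw [Measure.map_apply hm (MeasurableSet.univ_pi hs)]
  have e1 : (fun p : (Fin m → ℝ) × ℝ => Function.update p.1 j p.2) ⁻¹' (Set.univ.pi s) =
      (Set.univ.pi (Function.update s j Set.univ)) ×ˢ (s j) := by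
    ext ⟨r, c⟩
    simp only [Set.mem_preimage, Set.mem_univ_pi, Set.mem_prod]
    constructor
    · intro h
      refine ⟨fun l => ?_, ?_⟩
      · by_cases hl : l = j
        · subst hl
          rw [Function.update_self]
          exact Set.mem_univ _
        · have := h l
          rw [Function.update_of_ne hl] at this ⊢
          exact this
      · have := h j
        rwa [Function.update_self] at this
    · rintro ⟨h1, h2⟩ l
      by_cases hl : l = j
      · subst hl
        rwa [Function.update_self]
      · have := h1 l
        rw [Function.update_of_ne hl] at this ⊢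
        exact this
  have hms : MeasurableSet (Set.univ.pi (Function.update s j Set.univ)) := by
    refine MeasurableSet.univ_pi fun l => ?_
    by_cases hl : l = j
    · subst hl
      rw [Function.update_self]
      exact MeasurableSet.univ
    · rw [Function.update_of_ne hl]
      exact hs l
  have e2 : Set.univ.pi (Function.update s j Set.univ) ∩
      {r : Fin m → ℝ | r j ∈ Set.Icc (0 : ℝ) 1} =
      Set.univ.pi (Function.update s j (Set.Icc 0 1)) := by
    ext r
    simp only [Set.mem_inter_iff, Set.mem_univ_pi, Set.mem_setOf_eq]
    constructor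
    · rintro ⟨h1, h2⟩ l
      by_cases hl : l = j
      · subst hl
        rwa [Function.update_self]
      · have := h1 l
        rw [Function.update_of_ne hl] at this ⊢
        exact this
    · intro h
      refine ⟨fun l => ?_, ?_⟩
      · by_cases hl : l = j
        · subst hl
          rw [Function.update_self]
          exact Set.mem_univ _
        · have := h l
          rw [Function.update_of_ne hl] at this ⊢
          exact this
      · have := h j
        rwa [Function.update_self] at this
  rw [e1, Measure.prod_prod, Measure.restrict_apply hms, e2, volume_pi_pi,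
    ← Finset.mul_prod_erase Finset.univ (fun l => volume (Function.update s j (Set.Icc 0 1) l))
      (Finset.mem_univ j),
    ← Finset.mul_prod_erase Finset.univ (fun l => volume (s l)) (Finset.mem_univ j)]
  have e3 : ∏ l ∈ Finset.univ.erase j, volume (Function.update s j (Set.Icc (0 : ℝ) 1) l) =
      ∏ l ∈ Finset.univ.erase j, volume (s l) := by
    refine Finset.prod_congr rfl fun l hl => ?_
    rw [Function.update_of_ne (Finset.ne_of_mem_erase hl)]
  rw [e3, Function.update_self, Real.volume_Icc]
  simp [mul_comm]

theorem pf_CFB : T_CFB := by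
  intro m j
  set μ : Measure (Fin m → ℝ) := (volume : Measure (Fin m → ℝ)).restrict
    {r : Fin m → ℝ | r j ∈ Set.Icc (0 : ℝ) 1} with hμ
  have h0 : (volume : Measure (V m)).restrict {z : V m | ∀ i, z i j ∈ Set.Icc (0 : ℝ) 1} =
      Measure.pi fun _ : Fin m => μ := by
    rw [hμ, ← Measure.restrict_pi_pi (fun _ : Fin m => (volume : Measure (Fin m → ℝ)))
      fun _ => {r : Fin m → ℝ | r j ∈ Set.Icc (0 : ℝ) 1}]
    have : {z : V m | ∀ i, z i j ∈ Set.Icc (0 : ℝ) 1} =
        Set.univ.pi fun _ : Fin m => {r : Fin m → ℝ | r j ∈ Set.Icc (0 : ℝ) 1} := by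
      ext z
      simp only [Set.mem_setOf_eq, Set.mem_univ_pi]
    rw [this]
    rfl
  have h1 : MeasurePreserving (fun p : V m × EuclideanSpace ℝ (Fin m) =>
      ((p.1, WithLp.ofLp p.2) : V m × (Fin m → ℝ)))
      ((Measure.pi fun _ : Fin m => μ).prod volume)
      ((Measure.pi fun _ : Fin m => μ).prod (Measure.pi fun _ : Fin m => (volume : Measure ℝ))) :=
    (MeasurePreserving.id (Measure.pi fun _ : Fin m => μ)).prod
      (PiLp.volume_preserving_ofLp (Fin m))
  have h2 := (measurePreserving_arrowProdEquivProdArrow (Fin m → ℝ) ℝ (Fin m) (fun _ => μ)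
    (fun _ => (volume : Measure ℝ))).symm
  have h3 := measurePreserving_pi (fun _ : Fin m => μ.prod (volume : Measure ℝ))
    (fun _ : Fin m => (volume : Measure (Fin m → ℝ))) (fun _ => row j)
  have h4 := (h3.comp h2).comp h1
  rw [h0]
  have e : (fun p : V m × EuclideanSpace ℝ (Fin m) => rc j p.1 p.2) =
      ((fun a i => (fun p : (Fin m → ℝ) × ℝ => Function.update p.1 j p.2) (a i)) ∘
        (MeasurableEquiv.arrowProdEquivProdArrow (Fin m → ℝ) ℝ (Fin m)).symm) ∘
      (fun p : V m × EuclideanSpace ℝ (Fin m) => ((p.1, WithLp.ofLp p.2) :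
        V m × (Fin m → ℝ))) := by
    funext p i l
    show (if l = j then p.2 i else p.1 i l) = Function.update (p.1 i) j (p.2 i) l
    rw [Function.update_apply]
  rw [e]
  exact h4

end Pool.Agent.H4.GZ
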